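import Pool.Agent.Helper16.BicG.Final
set_option autoImplicit false

universe u

namespace Pool.Agent.Results.MP_8f4dc6_al.BicompactIffFunctoriallyFinite

open Bic

/-- Let `K` be any field, `A` any finite-dimensional `K`-algebra and `T` any torsion class in the
category of finitely generated `A`-modules.  Then `T` is bicompact if and only if it is
functorially finite. -/
theorem result (K : Type u) [Field K] (A : Type u) [Ring A] [Algebra K A] [Module.Finite K A]
    (T : ModuleCat.{u} A → Prop) (hT : IsTorsionClass A T) :
    IsBicompact A T ↔ IsFunctoriallyFinite A T :=
  BicG.bicompact_iff K A T hT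

end Pool.Agent.Results.MP_8f4dc6_al.BicompactIffFunctoriallyFinite
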